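import Pool.Agent.K3h81.RL.Stm
import Pool.Agent.K3h40.RS.SpanReg
import Pool.Agent.K3h30.RS.Act
import Pool.Agent.K3h25.RS.Trans

/-!
# Project RL (helper81), brick TAU: raising `S`-units to the power `∏ (1 - g)` (helper4)
-/

set_option autoImplicit false

open NumberField IsDedekindDomain Filter Topology

noncomputable section

namespace Pool.Agent.K3h4.RL

open Pool.Agent.K3h30.RS Pool.Agent.K3h81.RL

section hom

variable {H G : Type} [Field H] [CommGroup G] [MulSemiringAction G H]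

/-- `x ↦ x / g x` -/
def dl (g : G) : Hˣ →* Hˣ where
  toFun x := x * (act g x)⁻¹
  map_one' := by rw [act_map_one, inv_one, mul_one]
  map_mul' x y := by
    rw [act_map_mul, mul_inv]
    exact mul_mul_mul_comm _ _ _ _

theorem dl_apply (g : G) (x : Hˣ) : dl g x = x * (act g x)⁻¹ := rfl

theorem act_inv (γ : G) (x : Hˣ) : act γ x⁻¹ = (act γ x)⁻¹ := map_inv _ _

theorem act_comm (γ g : G) (x : Hˣ) : act γ (act g x) = act g (act γ x) := by
  rw [← act_mul, ← act_mul, mul_comm]

theorem dl_act (g γ : G) (x : Hˣ) : dl g (act γ x) = act γ (dl g x) := by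
  rw [dl_apply, dl_apply, act_map_mul, act_inv, act_comm]

theorem dl_comm (g g' : G) (x : Hˣ) : dl g (dl g' x) = dl g' (dl g x) := by
  rw [dl_apply g (dl g' x), ← dl_act, dl_apply g' x, dl_apply g' (act g x), dl_apply g x,
    dl_apply g', act_map_mul, act_inv, act_comm g' g x, mul_inv, inv_inv, mul_inv, inv_inv]
  exact mul_mul_mul_comm _ _ _ _

end hom

variable {F H G : Type} [Field F] [NumberField F] [Field H] [NumberField H] [Algebra F H]
  [CommGroup G] [Finite G] [MulSemiringAction G H]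

theorem av_mul (w : Place H) (x y : H) : av w (x * y) = av w x * av w y := by
  cases w with
  | inl w => simp only [av, map_mul, mul_pow]
  | inr w => simp only [av, map_mul]

theorem av_inv (w : Place H) (x : H) : av w x⁻¹ = (av w x)⁻¹ := by
  cases w with
  | inl w => simp only [av, map_inv₀, inv_pow]
  | inr w => simp only [av, map_inv₀]

theorem reg_mul (w : Place H) (x y : Hˣ) : reg G w (x * y) = reg G w x + reg G w y := by
  unfold reg
  rw [← Finset.sum_add_distrib]
  refine Finset.sum_congr rfl fun γ _ => ?_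
  rw [act_map_mul, Units.val_mul, av_mul,
    Real.log_mul (Pool.Agent.K3h40.RS.av_pos w _).ne' (Pool.Agent.K3h40.RS.av_pos w _).ne',
    ← MonoidAlgebra.single_add]

theorem reg_inv (w : Place H) (x : Hˣ) : reg G w x⁻¹ = - reg G w x := by
  have h : reg G w (x * x⁻¹) = reg G w x + reg G w x⁻¹ := reg_mul w x x⁻¹
  have h1 : reg G w (1 : Hˣ) = 0 := by
    have h2 := reg_mul (G := G) w (1 : Hˣ) 1
    rw [mul_one] at h2
    have h3 : reg G w (1 : Hˣ) + 0 = reg G w (1 : Hˣ) + reg G w (1 : Hˣ) := by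
      rw [add_zero]; exact h2
    exact (add_left_cancel h3).symm
  rw [mul_inv_cancel, h1] at h
  exact (neg_eq_of_add_eq_zero_right h.symm).symm

theorem reg_act (w : Place H) (g : G) (x : Hˣ) :
    reg G w (act g x) = MonoidAlgebra.single g 1 * reg G w x := by
  letI := Fintype.ofFinite G
  have h1 : reg G w (act g x) =
      ∑ γ : G, MonoidAlgebra.single γ (Real.log (av w ((act γ⁻¹ (act g x) : Hˣ) : H))) := rfl
  have h2 : reg G w x =
      ∑ γ : G, MonoidAlgebra.single γ (Real.log (av w ((act γ⁻¹ x : Hˣ) : H))) := rfl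
  rw [h1, h2, Finset.mul_sum]
  rw [← Equiv.sum_comp (Equiv.mulLeft g)]
  refine Finset.sum_congr rfl fun γ _ => ?_
  rw [MonoidAlgebra.single_mul_single, one_mul, Equiv.coe_mulLeft, ← act_mul, mul_inv_rev,
    inv_mul_cancel_right]

theorem reg_dl (w : Place H) (g : G) (x : Hˣ) :
    reg G w (dl g x) = (1 - MonoidAlgebra.single g 1) * reg G w x := by
  rw [dl_apply, reg_mul, reg_inv, reg_act, sub_mul, one_mul, sub_eq_add_neg]

theorem dl_mem [IsGaloisGroup G F H] (S T : Set (HeightOneSpectrum (𝓞 F))) (g : G) {x : Hˣ}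
    (hx : x ∈ unitGroup S T) : dl g x ∈ unitGroup S T := by
  rw [dl_apply]
  exact mul_mem hx (inv_mem (act_mem Pool.Agent.K3h25.RS.t_TRANS S T g hx))

theorem map_xC {G : Type} [CommGroup G] (g : G) :
    toR (toQ (1 - MonoidAlgebra.single g 1 : MonoidAlgebra ℤ G)) =
      1 - MonoidAlgebra.single g 1 := by
  rw [map_sub, map_sub, map_one, map_one]
  congr 1
  simp [toR, toQ]

theorem exists_tau [IsGaloisGroup G F H] [DecidableEq G] (C : Finset G) :
    ∃ τ : Hˣ →* Hˣ,
      (∀ (γ : G) (x : Hˣ), τ (act γ x) = act γ (τ x)) ∧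
      (∀ (w : Place H) (x : Hˣ), reg G w (τ x) = toR (toQ (xC C)) * reg G w x) ∧
      (∀ g ∈ C, ∃ ρ : Hˣ →* Hˣ, ∀ x, τ x = dl g (ρ x)) ∧
      ∀ (S T : Set (HeightOneSpectrum (𝓞 F))), ∀ x ∈ unitGroup (H := H) S T,
        τ x ∈ unitGroup S T := by
  induction C using Finset.induction_on with
  | empty =>
    refine ⟨MonoidHom.id _, fun γ x => rfl, fun w x => ?_, fun g hg => ?_, fun S T x hx => hx⟩
    · have h5 : xC (∅ : Finset G) = 1 := Finset.prod_empty
      rw [h5, map_one, map_one, one_mul]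
      rfl
    · exact absurd hg (Finset.notMem_empty g)
  | insert g C hg ih =>
    obtain ⟨τ, h1, h2, h3, h4⟩ := ih
    refine ⟨(dl g).comp τ, fun γ x => ?_, fun w x => ?_, fun g' hg' => ?_, fun S T x hx => ?_⟩
    · rw [MonoidHom.comp_apply, MonoidHom.comp_apply, h1, dl_act]
    · have h5 : xC (insert g C) = (1 - MonoidAlgebra.single g 1) * xC C :=
        Finset.prod_insert hg
      rw [MonoidHom.comp_apply, reg_dl, h2, h5, map_mul, map_mul, map_xC, mul_assoc]
    · rcases Finset.mem_insert.1 hg' with rfl | hg'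
      · exact ⟨τ, fun x => rfl⟩
      · obtain ⟨ρ, hρ⟩ := h3 g' hg'
        refine ⟨(dl g).comp ρ, fun x => ?_⟩
        rw [MonoidHom.comp_apply, MonoidHom.comp_apply, hρ, dl_comm]
    · rw [MonoidHom.comp_apply]
      exact dl_mem S T g (h4 S T x hx)

theorem t_TAU : S_TAU := by
  classical
  intro F H G _ _ _ _ _ _ _ _ _ C
  obtain ⟨τ, h1, h2, h3, h4⟩ := exists_tau (F := F) (H := H) C
  refine ⟨τ, h1, h2, fun S T P hP x hx => ?_⟩
  have h5 := h4 (S ∪ P) T x hx
  rw [mem_unitGroup] at h5 ⊢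
  refine ⟨fun w hw => ?_, h5.2⟩
  by_cases hwP : Above P w
  · obtain ⟨v, hv, hvw⟩ := above_mem hwP
    obtain ⟨g, hg, hfix⟩ := hP v hv
    obtain ⟨ρ, hρ⟩ := h3 g hg
    rw [hρ, dl_apply, Units.val_mul, Units.val_inv_eq_inv_val, map_mul, map_inv₀, act_val,
      hfix w hvw]
    refine mul_inv_cancel₀ ?_
    rw [Valuation.ne_zero_iff]
    exact (ρ x).ne_zero
  · refine h5.1 w fun h => ?_
    obtain ⟨v, hv, hvw⟩ := above_mem h
    rcases hv with hv | hv
    · exact hw ((above_iff hvw).2 hv)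
    · exact hwP ((above_iff hvw).2 hv)

end Pool.Agent.K3h4.RL
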